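import Mathlib
import Pool.Agent.X26.LF.Stm

/-! LF_BAD of helper26's project LF (backup by helper190). -/

set_option autoImplicit false

namespace Pool.Agent.X190.LF

open Finset Pool.Agent.X26.LF

theorem sum_ite_form {m N p : ℕ} (w : Fin m → ZMod p) (L : Finset (Fin m)) (κ : Fin m → Fin N) (x : Fin N → ZMod p) :
    ∑ i, (∑ k ∈ L, if κ k = i then w k else 0) * x i = ∑ k ∈ L, w k * x (κ k) := by
  simp only [Finset.sum_mul]
  rw [Finset.sum_comm]
  refine Finset.sum_congr rfl fun k _ => ?_
  simp [ite_mul]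

open Classical in
theorem single (hC : S_CNT) (m p N : ℕ) [Fact p.Prime] (u v : Fin m → ℤ) (A : Finset (ZMod p))
    (s : ZMod p) (hm : 1 ≤ m) (hNP : NP u v p) (hF : Free v p A) (ι : Fin m ↪ Fin N) (K L : Finset (Fin m))
    (a : Fin m → ZMod p) (κ : Fin m → Fin N) (ha : ∀ k ∈ K, a k ∈ A) :
    p ^ 2 * (univ.filter fun x : Fin N → ZMod p => ∑ j, (u j : ZMod p) * x (ι j) = s ∧
      ∑ k ∈ K, (v k : ZMod p) * a k + ∑ k ∈ L, (v k : ZMod p) * x (κ k) = 1).card ≤ p ^ N := by
  set c : Fin N → ZMod p := fun i => ∑ j ∈ univ, if ι j = i then (u j : ZMod p) else 0 with hc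
  set d : Fin N → ZMod p := fun i => ∑ k ∈ L, if κ k = i then (v k : ZMod p) else 0 with hd
  have hcx : ∀ x : Fin N → ZMod p, ∑ i, c i * x i = ∑ j, (u j : ZMod p) * x (ι j) :=
    fun x => sum_ite_form (fun j => (u j : ZMod p)) univ ι x
  have hdx : ∀ x : Fin N → ZMod p, ∑ i, d i * x i = ∑ k ∈ L, (v k : ZMod p) * x (κ k) :=
    fun x => sum_ite_form (fun j => (v j : ZMod p)) L κ x
  have hcι : ∀ j, c (ι j) = u j := by
    intro j
    rw [hc]
    simp only
    rw [Finset.sum_eq_single j]
    · simp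
    · intro j' _ hj'
      rw [if_neg]
      exact fun h => hj' (ι.injective h)
    · intro h; exact absurd (Finset.mem_univ _) h
  have hc0 : c ≠ 0 := by
    intro h
    have := hcι ⟨0, hm⟩
    rw [h] at this
    exact hNP.1 _ this.symm
  by_cases hdep : ∃ l, d = fun i => l * c i
  · obtain ⟨l, hl⟩ := hdep
    by_cases hl0 : l = 0
    · have : (univ.filter fun x : Fin N → ZMod p => ∑ j, (u j : ZMod p) * x (ι j) = s ∧
      ∑ k ∈ K, (v k : ZMod p) * a k + ∑ k ∈ L, (v k : ZMod p) * x (κ k) = 1) = ∅ := by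
        refine Finset.filter_eq_empty_iff.mpr ?_
        rintro x _ ⟨_, h2⟩
        rw [← hdx, hl, hl0] at h2
        simp only [zero_mul, Finset.sum_const_zero, add_zero] at h2
        exact hF K a ha h2
      rw [this]
      simp
    · exfalso
      have hex : ∀ j, ∃ k, k ∈ L ∧ κ k = ι j := by
        intro j
        by_contra hcon
        push Not at hcon
        have h1 : d (ι j) = 0 := by
          rw [hd]
          simp only
          refine Finset.sum_eq_zero fun k hk => ?_
          rw [if_neg (hcon k hk)]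
        rw [hl] at h1
        simp only [hcι] at h1
        rcases mul_eq_zero.mp h1 with h | h
        · exact hl0 h
        · exact hNP.1 j h
      choose τ hτL hτ using hex
      have hτi : Function.Injective τ := by
        intro j j' h
        apply ι.injective
        rw [← hτ j, ← hτ j', h]
      have hτb : Function.Bijective τ := Finite.injective_iff_bijective.mp hτi
      set σ := Equiv.ofBijective τ hτb with hσ
      have hκ : ∀ k, κ k = ι (σ.symm k) := by
        intro k
        rw [← hτ (σ.symm k)]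
        congr 1
        exact (Equiv.apply_symm_apply σ k).symm
      have hL : ∀ k, k ∈ L := by
        intro k
        have := hτL (σ.symm k)
        have h2 : τ (σ.symm k) = k := Equiv.apply_symm_apply σ k
        rwa [h2] at this
      refine hNP.2 σ.symm l fun k => ?_
      have h1 := congrFun hl (κ k)
      have h2 : d (κ k) = v k := by
        rw [hd]
        simp only
        rw [Finset.sum_eq_single k]
        · simp
        · intro k' _ hk'
          rw [if_neg]
          intro h
          rw [hκ, hκ] at h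
          exact hk' (σ.symm.injective (ι.injective h))
        · intro h; exact absurd (hL k) h
      rw [h2] at h1
      rw [h1, hκ k, hcι]
  · have h1 := (hC p N c d s (1 - ∑ k ∈ K, (v k : ZMod p) * a k) hc0).2 hdep
    rw [← h1]
    refine Nat.mul_le_mul_left _ (Finset.card_le_card ?_)
    intro x hx
    simp only [Finset.mem_filter, Finset.mem_univ, true_and] at hx ⊢
    refine ⟨?_, ?_⟩
    · rw [hcx]; exact hx.1
    · rw [hdx]
      exact eq_sub_of_add_eq' hx.2

open Classical in
theorem t_BAD : S_BAD := by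
  intro hC m p N _ u v A s hm hNP hF
  obtain ⟨m', rfl⟩ : ∃ m', m = m' + 1 := ⟨m - 1, by omega⟩
  -- parameters
  let T := (Fin (m' + 1) ↪ Fin N) × Fin (m' + 1) × Fin (m' + 1) × Finset (Fin (m' + 1)) × Finset (Fin (m' + 1)) ×
    (Fin m' → A ⊕ Fin N)
  let av : T → Fin (m' + 1) → ZMod p := fun t =>
    Fin.insertNth (α := fun _ => ZMod p) t.2.2.1 0 (fun i => Sum.elim (fun z : A => (z : ZMod p)) (fun _ => 0) (t.2.2.2.2.2 i))
  let kv : T → Fin (m' + 1) → Fin N := fun t =>
    Fin.insertNth (α := fun _ => Fin N) t.2.2.1 (t.1 t.2.1) (fun i => Sum.elim (fun _ => t.1 t.2.1) id (t.2.2.2.2.2 i))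
  let E : T → Finset (Fin N → ZMod p) := fun t =>
    if ∀ k ∈ t.2.2.2.1, av t k ∈ A then
      univ.filter fun x : Fin N → ZMod p => ∑ j, (u j : ZMod p) * x (t.1 j) = s ∧
        ∑ k ∈ t.2.2.2.1, (v k : ZMod p) * av t k + ∑ k ∈ t.2.2.2.2.1, (v k : ZMod p) * x (kv t k) = 1
    else ∅
  have hE : ∀ t : T, p ^ 2 * (E t).card ≤ p ^ N := by
    intro t
    by_cases h : ∀ k ∈ t.2.2.2.1, av t k ∈ A
    · simp only [E, if_pos h]
      exact single hC (m' + 1) p N u v A s hm hNP hF t.1 t.2.2.2.1 t.2.2.2.2.1 (av t) (kv t) h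
    · simp only [E, if_neg h, Finset.card_empty, mul_zero]
      exact Nat.zero_le _
  have hsub : (univ.filter fun x : Fin N → ZMod p => ∃ ι : Fin (m' + 1) ↪ Fin N,
      ∑ j, (u j : ZMod p) * x (ι j) = s ∧ ∃ j, Bad v p A x (ι j)) ⊆ (univ : Finset T).biUnion E := by
    intro x hx
    simp only [Finset.mem_filter, Finset.mem_univ, true_and] at hx
    obtain ⟨ι, h1, j, K, L, a, κ, hKL, haK, ⟨k, hkL, hkj⟩, hrel⟩ := hx
    have hkK : k ∉ K := fun h => (Finset.disjoint_left.mp hKL h) hkL
    let w : Fin m' → A ⊕ Fin N := fun i =>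
      if h : k.succAbove i ∈ K then Sum.inl ⟨a (k.succAbove i), haK _ h⟩ else Sum.inr (κ (k.succAbove i))
    let t : T := (ι, j, k, K, L, w)
    have hav : ∀ i ∈ K, av t i = a i := by
      intro i hi
      have hik : i ≠ k := fun h => hkK (h ▸ hi)
      obtain ⟨i', rfl⟩ := Fin.exists_succAbove_eq hik
      simp only [av, t, Fin.insertNth_apply_succAbove, w, dif_pos hi, Sum.elim_inl]
    have hkv : ∀ i ∈ L, kv t i = κ i := by
      intro i hi
      have hiK : i ∉ K := fun h => (Finset.disjoint_left.mp hKL h) hi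
      by_cases hik : i = k
      · rw [hik]
        simp only [kv, t, Fin.insertNth_apply_same]
        exact hkj.symm
      · obtain ⟨i', rfl⟩ := Fin.exists_succAbove_eq hik
        simp only [kv, t, Fin.insertNth_apply_succAbove, w, dif_neg hiK, Sum.elim_inr, id]
    refine Finset.mem_biUnion.mpr ⟨t, Finset.mem_univ _, ?_⟩
    have hcond : ∀ i ∈ t.2.2.2.1, av t i ∈ A := by
      intro i hi
      rw [hav i hi]
      exact haK i hi
    simp only [E, if_pos hcond, Finset.mem_filter, Finset.mem_univ, true_and]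
    refine ⟨h1, ?_⟩
    rw [← hrel]
    congr 1
    · exact Finset.sum_congr rfl fun i hi => by rw [hav i hi]
    · exact Finset.sum_congr rfl fun i hi => by rw [hkv i hi]
  have hcard : Fintype.card T ≤ (m' + 1) ^ 2 * 4 ^ (m' + 1) * (A.card + N) ^ (2 * (m' + 1) - 1) := by
    have h1 : Fintype.card T = Fintype.card (Fin (m' + 1) ↪ Fin N) * ((m' + 1) * ((m' + 1) * (2 ^ (m' + 1) * (2 ^ (m' + 1) *
        (A.card + N) ^ m')))) := by
      simp only [T, Fintype.card_prod, Fintype.card_fin, Fintype.card_finset, Fintype.card_fun, Fintype.card_sum,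
        Fintype.card_coe]
    have h2 : Fintype.card (Fin (m' + 1) ↪ Fin N) ≤ (A.card + N) ^ (m' + 1) := by
      rw [Fintype.card_embedding_eq, Fintype.card_fin, Fintype.card_fin]
      exact (Nat.descFactorial_le_pow _ _).trans (Nat.pow_le_pow_left (by omega) _)
    rw [h1]
    refine (Nat.mul_le_mul_right _ h2).trans (le_of_eq ?_)
    have h3 : 2 * (m' + 1) - 1 = (m' + 1) + m' := by omega
    have h4 : (4 : ℕ) ^ (m' + 1) = 2 ^ (m' + 1) * 2 ^ (m' + 1) := by
      rw [← mul_pow]; norm_num
    rw [h3, h4, pow_add]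
    ring
  calc p ^ 2 * _ ≤ p ^ 2 * ((univ : Finset T).biUnion E).card := Nat.mul_le_mul_left _ (Finset.card_le_card hsub)
    _ ≤ p ^ 2 * ∑ t : T, (E t).card := Nat.mul_le_mul_left _ Finset.card_biUnion_le
    _ = ∑ t : T, p ^ 2 * (E t).card := by rw [Finset.mul_sum]
    _ ≤ ∑ _t : T, p ^ N := Finset.sum_le_sum fun t _ => hE t
    _ = Fintype.card T * p ^ N := by rw [Finset.sum_const, Finset.card_univ, smul_eq_mul]
    _ ≤ _ := Nat.mul_le_mul_right _ hcard

end Pool.Agent.X190.LF
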